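import Mathlib
import Pool.Agent.TH623.SR.Sch

/-!
# MP_f23696_ag, Q1: minimal log discrepancies and non-effective divisors

For the pair `(X, Δ) = (𝔸¹, c [0])`, `c` a real number, over an algebraically closed field, the
minimal log discrepancy on closed points is lower semicontinuous if and only if `c ≥ 0`.
-/

universe u

open CategoryTheory AlgebraicGeometry IsLocalRing TopologicalSpace
open scoped nonZeroDivisors

namespace Pool.Agent.Results.MP_f23696_ag.NonEffective

open Pool.Agent.TH623.SR

/-- `(Y, f, y)` is a prime divisor over `X`: `f : Y ⟶ X` is proper and birational (an isomorphism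
over a non-empty open subset of `X`), `Y` is integral and normal, and the local ring of `Y` at `y`
is a discrete valuation ring, that is, `y` is the generic point of a prime divisor `E` of `Y`. -/
structure IsDivisorOver {X Y : Scheme.{u}} [AlgebraicGeometry.IsIntegral Y] (f : Y ⟶ X) (y : Y) :
    Prop where
  normal : ∀ z : Y, IsIntegrallyClosed (Y.presheaf.stalk z)
  proper : IsProper f
  birational : ∃ U : X.Opens, (U : Set X).Nonempty ∧ IsIso (f ∣_ U)
  dvr : IsDiscreteValuationRing (Y.presheaf.stalk y)

/-- The multiplicity of `E` in the relative canonical divisor `K_Y - f^* K_X`, for `X` smooth: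
the order along `E` of the Jacobian ideal of `f`, which is the length of the module of relative
differentials of the local rings. -/
noncomputable def relativeCanonical {X Y : Scheme.{u}} (f : Y ⟶ X) (y : Y) : ℕ :=
  let _ := (f.stalkMap y).hom.toAlgebra
  (Module.length (Y.presheaf.stalk y)
    (Ω[Y.presheaf.stalk y⁄X.presheaf.stalk (f y)])).toNat

/-- The order along `E` of the pull-back to `Y` of a function `h` on `X`. -/
noncomputable def orderAlong {X Y : Scheme.{u}} [AlgebraicGeometry.IsIntegral Y] (h : Γ(X, ⊤))
    (f : Y ⟶ X) (y : Y) (_ : IsDiscreteValuationRing (Y.presheaf.stalk y)) : ℕ :=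
  (IsDiscreteValuationRing.addVal (Y.presheaf.stalk y)
    ((f.stalkMap y).hom ((X.presheaf.germ ⊤ (f y) trivial).hom h))).toNat

/-- The log discrepancy `a_E(X, Δ) = 1 + ord_E (K_Y - f^* (K_X + Δ))` for `Δ = c · div h`. -/
noncomputable def logDiscrepancy {X Y : Scheme.{u}} [AlgebraicGeometry.IsIntegral Y] (c : ℝ)
    (h : Γ(X, ⊤)) (f : Y ⟶ X) (y : Y) (hy : IsDiscreteValuationRing (Y.presheaf.stalk y)) : ℝ :=
  1 + (relativeCanonical f y : ℝ) - c * (orderAlong h f y hy : ℝ)

/-- The set of the log discrepancies of the divisors over `X` with centre the closure of `x`. -/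
def discrepancies {X : Scheme.{u}} (c : ℝ) (h : Γ(X, ⊤)) (x : X) : Set EReal :=
  {a | ∃ (Y : Scheme.{u}) (_ : AlgebraicGeometry.IsIntegral Y) (f : Y ⟶ X) (y : Y)
    (hE : IsDivisorOver f y), f y = x ∧ a = ((logDiscrepancy c h f y hE.dvr : ℝ) : EReal)}

open Classical in
/-- The minimal log discrepancy of `(X, c · div h)` at `x`; it is `-∞` if the infimum is
negative. -/
noncomputable def mld {X : Scheme.{u}} (c : ℝ) (h : Γ(X, ⊤)) (x : X) : EReal :=
  if sInf (discrepancies c h x) < 0 then ⊥ else sInf (discrepancies c h x)

/-- The set `X^(d)` of the points whose closure has dimension `d`, with the topology induced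
from `X`. -/
abbrev PointsOfDim (X : Scheme.{u}) (d : ℕ) : Type u :=
  {x : X // topologicalKrullDim (closure ({x} : Set X)) = d}

/-- Lower semicontinuity of the minimal log discrepancy of `(X, c · div h)` on `X^(d)`. -/
def IsLowerSemicontinuousOn (X : Scheme.{u}) (c : ℝ) (h : Γ(X, ⊤)) (d : ℕ) : Prop :=
  ∀ a : ℝ, IsClosed {x : PointsOfDim X d | mld c h x.1 ≤ (a : EReal)}

/-- The affine line. -/
noncomputable abbrev affineLine (k : Type u) [Field k] : Scheme.{u} :=
  Spec (CommRingCat.of (Polynomial k))

/-- The coordinate function on the affine line, whose divisor is the origin. -/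
noncomputable def coordinate (k : Type u) [Field k] : Γ(affineLine k, ⊤) :=
  (Scheme.ΓSpecIso (CommRingCat.of (Polynomial k))).inv.hom (Polynomial.X : Polynomial k)

section stalks

variable {X Y : Scheme.{u}} [AlgebraicGeometry.IsIntegral X] [AlgebraicGeometry.IsIntegral Y]

/-- A birational morphism induces an isomorphism on the local rings at `y` if the local ring of
`X` at `f y` is a valuation ring. -/
lemma stalkMap_bijective_of_valuationRing (f : Y ⟶ X) (y : Y) (U : X.Opens)
    (hU : (U : Set X).Nonempty) [IsIso (f ∣_ U)] [ValuationRing (X.presheaf.stalk (f y))] :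
    Function.Bijective (f.stalkMap y).hom := by
  obtain ⟨x0, hx0⟩ := hU
  -- the generic point
  have hmem : f (genericPoint Y) ∈ U := by
    let z : U.toScheme := ⟨x0, hx0⟩
    let w : (f ⁻¹ᵁ U).toScheme := inv (f ∣_ U) z
    have hw : w.1 ∈ f ⁻¹ᵁ U := w.2
    have h1 : genericPoint Y ⤳ w.1 := (genericPoint_spec Y).specializes trivial
    exact h1.mem_open (f ⁻¹ᵁ U).2 hw
  have hγ : Function.Bijective (f.stalkMap (genericPoint Y)).hom :=
    stalkMap_bijective_of_isIso_restrict f U _ hmem
  have hgenX : ∀ x : X, f (genericPoint Y) ⤳ x := by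
    -- the generic point of `X` is in `U`, hence in the image
    have h1 : genericPoint X ∈ U :=
      ((genericPoint_spec X).specializes (Set.mem_univ x0)).mem_open U.2 hx0
    let z : U.toScheme := ⟨genericPoint X, h1⟩
    let w : (f ⁻¹ᵁ U).toScheme := inv (f ∣_ U) z
    have h2 : f w.1 = genericPoint X := by
      have h3 : (f ∣_ U) w = z := by
        rw [← Scheme.Hom.comp_apply, IsIso.inv_hom_id]
        rfl
      have h4 := morphismRestrict_base_coe f U w
      rw [h3] at h4
      exact h4.symm
    have h5 : genericPoint Y ⤳ w.1 := (genericPoint_spec Y).specializes trivial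
    have h6 := h5.map f.continuous
    rw [h2] at h6
    intro x
    exact h6.trans ((genericPoint_spec X).specializes (Set.mem_univ x))
  have hsp : genericPoint Y ⤳ y := (genericPoint_spec Y).specializes trivial
  have hσB : Function.Injective (Y.presheaf.stalkSpecializes hsp).hom :=
    IsFractionRing.injective (Y.presheaf.stalk y) Y.functionField
  have hcomm : ∀ a : X.presheaf.stalk (f y),
      (f.stalkMap (genericPoint Y)).hom ((X.presheaf.stalkSpecializes (hgenX (f y))).hom a) =
        (Y.presheaf.stalkSpecializes hsp).hom ((f.stalkMap y).hom a) := fun a =>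
    Scheme.Hom.stalkSpecializes_stalkMap_apply f (genericPoint Y) y hsp a
  obtain ⟨hfrac, hker⟩ := generic_stalk (x := f y) hgenX
  constructor
  · rw [injective_iff_map_eq_zero]
    intro a ha
    have h1 : (X.presheaf.stalkSpecializes (hgenX (f y))).hom a = 0 := by
      apply hγ.1
      rw [hcomm, ha, map_zero, map_zero]
    exact (hker a h1).eq_zero
  · intro b
    by_cases hb : b = 0
    · exact ⟨0, by rw [map_zero, hb]⟩
    obtain ⟨e, he⟩ := hγ.2 ((Y.presheaf.stalkSpecializes hsp).hom b)
    obtain ⟨c, d, hd, hcd⟩ := hfrac e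
    have h1 : b * (f.stalkMap y).hom d = (f.stalkMap y).hom c := by
      apply hσB
      rw [map_mul, ← he, ← hcomm, ← hcomm, ← map_mul, hcd]
    have hd0 : (f.stalkMap y).hom d ≠ 0 := by
      intro h0
      have h2 : IsUnit ((Y.presheaf.stalkSpecializes hsp).hom ((f.stalkMap y).hom d)) := by
        rw [← hcomm]
        exact hd.map _
      rw [h0, map_zero] at h2
      exact not_isUnit_zero h2
    rcases ValuationRing.dvd_total d c with ⟨a, ha⟩ | ⟨a, ha⟩
    · refine ⟨a, ?_⟩
      rw [ha, map_mul, mul_comm] at h1
      exact (mul_left_cancel₀ hd0 h1).symm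
    · have hc0 : (f.stalkMap y).hom c ≠ 0 := by
        rw [← h1]
        exact mul_ne_zero hb hd0
      have h2 : b * (f.stalkMap y).hom a = 1 := by
        rw [ha, map_mul] at h1
        have h3 : (f.stalkMap y).hom c * (b * (f.stalkMap y).hom a) =
            (f.stalkMap y).hom c * 1 := by
          rw [mul_one]
          calc (f.stalkMap y).hom c * (b * (f.stalkMap y).hom a) =
              b * ((f.stalkMap y).hom c * (f.stalkMap y).hom a) := by ring
            _ = _ := h1
        exact mul_left_cancel₀ hc0 h3
      have hau : IsUnit ((f.stalkMap y).hom a) := IsUnit.of_mul_eq_one b (by rw [mul_comm]; exact h2)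
      obtain ⟨v, hv⟩ := (isUnit_of_map_unit (f.stalkMap y).hom a hau)
      refine ⟨(v⁻¹ : (X.presheaf.stalk (f y))ˣ), ?_⟩
      have h4 : (f.stalkMap y).hom (v⁻¹ : (X.presheaf.stalk (f y))ˣ) * (f.stalkMap y).hom a = 1 := by
        rw [← hv, ← map_mul, Units.inv_mul, map_one]
      calc (f.stalkMap y).hom (v⁻¹ : (X.presheaf.stalk (f y))ˣ) =
          (f.stalkMap y).hom (v⁻¹ : (X.presheaf.stalk (f y))ˣ) * (b * (f.stalkMap y).hom a) := by
            rw [h2, mul_one]
        _ = ((f.stalkMap y).hom (v⁻¹ : (X.presheaf.stalk (f y))ˣ) * (f.stalkMap y).hom a) * b := by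
            ring
        _ = b := by rw [h4, one_mul]

end stalks

section line

variable (k : Type u) [Field k]

lemma closedPoint_asIdeal (x : affineLine k) (hx : IsClosed ({x} : Set (affineLine k))) :
    x.asIdeal.IsMaximal ∧ x.asIdeal ≠ ⊥ := by
  have h1 : x.asIdeal.IsMaximal := (PrimeSpectrum.isClosed_singleton_iff_isMaximal x).1 hx
  refine ⟨h1, fun h0 => ?_⟩
  rw [h0] at h1
  exact Polynomial.not_isField k (Ring.isField_iff_maximal_bot.2 h1)

lemma stalk_facts (x : affineLine k) :
    ∃ (alg : Algebra (Polynomial k) ((affineLine k).presheaf.stalk x)),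
      @IsLocalization.AtPrime (Polynomial k) _ ((affineLine k).presheaf.stalk x) _ alg
        x.asIdeal x.isPrime ∧
      ((affineLine k).presheaf.germ ⊤ x trivial).hom (coordinate k) =
        @algebraMap (Polynomial k) ((affineLine k).presheaf.stalk x) _ _ alg Polynomial.X :=
  ⟨StructureSheaf.stalkAlgebra (Polynomial k) x, StructureSheaf.IsLocalization.to_stalk _ x, rfl⟩

lemma dvr_stalk (x : affineLine k) (hx : IsClosed ({x} : Set (affineLine k))) :
    IsDiscreteValuationRing ((affineLine k).presheaf.stalk x) := by
  obtain ⟨alg, hloc, -⟩ := stalk_facts k x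
  have hp : x.asIdeal.IsPrime := x.isPrime
  exact IsLocalization.AtPrime.isDiscreteValuationRing_of_dedekind_domain (Polynomial k)
    (closedPoint_asIdeal k x hx).2 _

lemma normal_stalk (x : affineLine k) :
    IsIntegrallyClosed ((affineLine k).presheaf.stalk x) := by
  obtain ⟨alg, hloc, -⟩ := stalk_facts k x
  have hp : x.asIdeal.IsPrime := x.isPrime
  exact isIntegrallyClosed_of_isLocalization (R := Polynomial k) _ x.asIdeal.primeCompl
    x.asIdeal.primeCompl_le_nonZeroDivisors

/-- The identity gives a divisor over the affine line with centre a given closed point. -/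
lemma isDivisorOver_id (x : affineLine k) (hx : IsClosed ({x} : Set (affineLine k))) :
    IsDivisorOver (𝟙 (affineLine k)) x where
  normal := normal_stalk k
  proper := inferInstance
  birational := ⟨⊤, ⟨x, trivial⟩, inferInstance⟩
  dvr := dvr_stalk k x hx

open Classical in
lemma logDiscrepancy_eq {Y : Scheme.{u}} [AlgebraicGeometry.IsIntegral Y] (c : ℝ)
    (f : Y ⟶ affineLine k) (y : Y) (hE : IsDivisorOver f y)
    (hx : IsClosed ({f y} : Set (affineLine k))) :
    logDiscrepancy c (coordinate k) f y hE.dvr =
      if (Polynomial.X : Polynomial k) ∈ (f y).asIdeal then 1 - c else 1 := by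
  obtain ⟨U, hU, hUi⟩ := hE.birational
  have hdvrA := dvr_stalk k (f y) hx
  have hdvrB := hE.dvr
  have hbij : Function.Bijective (f.stalkMap y).hom :=
    stalkMap_bijective_of_valuationRing f y U hU
  have h1 : relativeCanonical f y = 0 := by
    unfold relativeCanonical
    let _ := (f.stalkMap y).hom.toAlgebra
    have h2 : Subsingleton (Ω[Y.presheaf.stalk y⁄(affineLine k).presheaf.stalk (f y)]) :=
      KaehlerDifferential.subsingleton_of_surjective _ _ hbij.2
    have h3 : Module.length (Y.presheaf.stalk y)
        (Ω[Y.presheaf.stalk y⁄(affineLine k).presheaf.stalk (f y)]) = 0 := Module.length_eq_zero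
    simp only [h3]
    rfl
  obtain ⟨alg, hloc, hgerm⟩ := stalk_facts k (f y)
  have hp : (f y).asIdeal.IsPrime := (f y).isPrime
  have h2 : orderAlong (coordinate k) f y hE.dvr =
      if (Polynomial.X : Polynomial k) ∈ (f y).asIdeal then 1 else 0 := by
    unfold orderAlong
    rw [hgerm]
    split_ifs with hX
    · have hmax : (f y).asIdeal = Ideal.span {(Polynomial.X : Polynomial k)} := by
        have h3 : (Ideal.span {(Polynomial.X : Polynomial k)}).IsMaximal :=
          PrincipalIdealRing.isMaximal_of_irreducible Polynomial.irreducible_X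
        exact (h3.eq_of_le (closedPoint_asIdeal k _ hx).1.ne_top
          ((Ideal.span_singleton_le_iff_mem _).2 hX)).symm
      have hA : maximalIdeal ((affineLine k).presheaf.stalk (f y)) =
          Ideal.span {algebraMap (Polynomial k) _ (Polynomial.X : Polynomial k)} := by
        rw [← IsLocalization.AtPrime.map_eq_maximalIdeal (f y).asIdeal, hmax, Ideal.map_span,
          Set.image_singleton]
      have hB : Irreducible ((f.stalkMap y).hom
          (algebraMap (Polynomial k) _ (Polynomial.X : Polynomial k))) := by
        rw [IsDiscreteValuationRing.irreducible_iff_uniformizer]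
        apply le_antisymm
        · intro b hb
          obtain ⟨a, rfl⟩ := hbij.2 b
          have ha : a ∈ maximalIdeal ((affineLine k).presheaf.stalk (f y)) := by
            rw [mem_maximalIdeal, mem_nonunits_iff]
            intro hau
            exact (mem_maximalIdeal _).1 hb (hau.map _)
          rw [hA, Ideal.mem_span_singleton] at ha
          rw [Ideal.mem_span_singleton]
          exact map_dvd (f.stalkMap y).hom ha
        · rw [Ideal.span_singleton_le_iff_mem, mem_maximalIdeal, mem_nonunits_iff]
          intro hu
          have h4 := isUnit_of_map_unit (f.stalkMap y).hom _ hu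
          have h5 : algebraMap (Polynomial k) _ (Polynomial.X : Polynomial k) ∈
              maximalIdeal ((affineLine k).presheaf.stalk (f y)) := by
            rw [hA]
            exact Ideal.mem_span_singleton_self _
          exact (mem_maximalIdeal _).1 h5 h4
      rw [IsDiscreteValuationRing.addVal_uniformizer hB]
      rfl
    · have hu : IsUnit (algebraMap (Polynomial k) ((affineLine k).presheaf.stalk (f y))
          (Polynomial.X : Polynomial k)) :=
        IsLocalization.map_units _ (⟨Polynomial.X, hX⟩ : (f y).asIdeal.primeCompl)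
      obtain ⟨w, hw⟩ := hu.map (f.stalkMap y).hom
      obtain ⟨ϖ, hϖ⟩ := IsDiscreteValuationRing.exists_irreducible (Y.presheaf.stalk y)
      rw [IsDiscreteValuationRing.addVal_def _ w hϖ 0 (by rw [pow_zero, mul_one, hw])]
      rfl
  unfold logDiscrepancy
  rw [h1, h2]
  split_ifs <;> simp

open Classical in
lemma mld_eq (c : ℝ) (x : affineLine k) (hx : IsClosed ({x} : Set (affineLine k))) :
    mld c (coordinate k) x =
      if (Polynomial.X : Polynomial k) ∈ x.asIdeal then (if 1 - c < 0 then ⊥ else ((1 - c : ℝ) : EReal))
      else 1 := by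
  have h1 : discrepancies c (coordinate k) x =
      {((if (Polynomial.X : Polynomial k) ∈ x.asIdeal then 1 - c else 1 : ℝ) : EReal)} := by
    ext a
    constructor
    · rintro ⟨Y, hY, f, y, hE, hfy, rfl⟩
      subst hfy
      rw [Set.mem_singleton_iff, logDiscrepancy_eq k c f y hE hx]
    · rintro rfl
      refine ⟨affineLine k, inferInstance, 𝟙 _, x, isDivisorOver_id k x hx, rfl, ?_⟩
      rw [logDiscrepancy_eq k c (𝟙 (affineLine k)) x (isDivisorOver_id k x hx) hx]
      rfl
  unfold mld
  rw [h1, sInf_singleton]
  by_cases hX : (Polynomial.X : Polynomial k) ∈ x.asIdeal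
  · simp only [hX, if_true]
    by_cases hc : 1 - c < 0
    · rw [if_pos hc, if_pos (by exact_mod_cast hc)]
    · rw [if_neg hc, if_neg (by exact_mod_cast hc)]
  · simp only [hX, if_false]
    rw [if_neg (by simp)]
    rfl

lemma krullDim_closure_closed (x : affineLine k) (hx : IsClosed ({x} : Set (affineLine k))) :
    topologicalKrullDim (closure ({x} : Set (affineLine k))) = 0 := by
  rw [hx.closure_eq]
  refine le_antisymm (topologicalKrullDim_zero_of_discreteTopology ({x} : Set (affineLine k))) ?_
  have : Nonempty (IrreducibleCloseds ({x} : Set (affineLine k))) :=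
    ⟨⟨closure {⟨x, rfl⟩}, isIrreducible_singleton.closure, isClosed_closure⟩⟩
  exact Order.krullDim_nonneg

lemma eq_bot_of_not_closed (x : affineLine k) (hx : ¬ IsClosed ({x} : Set (affineLine k))) :
    x.asIdeal = ⊥ := by
  by_contra h0
  have hp : x.asIdeal.IsPrime := x.isPrime
  exact hx ((PrimeSpectrum.isClosed_singleton_iff_isMaximal x).2 (hp.isMaximal h0))

lemma krullDim_closure_not_closed (x : affineLine k)
    (hx : ¬ IsClosed ({x} : Set (affineLine k))) :
    topologicalKrullDim (closure ({x} : Set (affineLine k))) = 1 := by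
  have h1 := eq_bot_of_not_closed k x hx
  have h2 : closure ({x} : Set (affineLine k)) = Set.univ := by
    rw [Set.eq_univ_iff_forall]
    intro y
    rw [← specializes_iff_mem_closure]
    refine (PrimeSpectrum.le_iff_specializes (x : PrimeSpectrum (Polynomial k)) y).1 ?_
    change x.asIdeal ≤ _
    rw [h1]
    exact bot_le
  rw [h2, (Homeomorph.Set.univ (affineLine k)).isHomeomorph.topologicalKrullDim_eq]
  refine (PrimeSpectrum.topologicalKrullDim_eq_ringKrullDim (Polynomial k)).trans ?_
  exact IsPrincipalIdealRing.ringKrullDim_eq_one _ (Polynomial.not_isField k)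

lemma closed_of_dim_zero (x : PointsOfDim (affineLine k) 0) :
    IsClosed ({x.1} : Set (affineLine k)) := by
  by_contra h
  have h1 := krullDim_closure_not_closed k x.1 h
  rw [x.2] at h1
  simp at h1

lemma subsingleton_of_dim_pos (d : ℕ) (hd : d ≠ 0) : Subsingleton (PointsOfDim (affineLine k) d) := by
  refine ⟨fun x y => Subtype.ext (PrimeSpectrum.ext ?_)⟩
  have h : ∀ z : PointsOfDim (affineLine k) d, z.1.asIdeal = ⊥ := by
    intro z
    apply eq_bot_of_not_closed
    intro hz
    have h1 := krullDim_closure_closed k z.1 hz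
    rw [z.2] at h1
    exact hd (by exact_mod_cast h1)
  rw [h x, h y]

/-- The closed point of the affine line with coordinate `a`. -/
noncomputable def point (a : k) : affineLine k :=
  (⟨Ideal.span {Polynomial.X - Polynomial.C a},
    (PrincipalIdealRing.isMaximal_of_irreducible (Polynomial.irreducible_X_sub_C a)).isPrime⟩ :
    PrimeSpectrum (Polynomial k))

lemma point_closed (a : k) : IsClosed ({point k a} : Set (affineLine k)) :=
  (PrimeSpectrum.isClosed_singleton_iff_isMaximal _).2
    (PrincipalIdealRing.isMaximal_of_irreducible (Polynomial.irreducible_X_sub_C a))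

lemma mem_point_iff (a : k) (g : Polynomial k) : g ∈ (point k a).asIdeal ↔ g.eval a = 0 := by
  change g ∈ Ideal.span {Polynomial.X - Polynomial.C a} ↔ _
  rw [Ideal.mem_span_singleton, Polynomial.dvd_iff_isRoot]
  rfl

end line

/-- Over an algebraically closed field `k` of characteristic zero, let `X` be the affine line and
`Δ = c [0]` with `c` a real number.  The minimal log discrepancy is lower semicontinuous on `X^(d)`
for all `d` if and only if `c ≥ 0`; if `c < 0` then the set of the closed points with minimal log
discrepancy at most `1` is not closed in `X^(0)`. -/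
theorem result (k : Type u) [Field k] [IsAlgClosed k] [CharZero k] (c : ℝ) :
    ((∀ d : ℕ, IsLowerSemicontinuousOn (affineLine k) c (coordinate k) d) ↔ 0 ≤ c) ∧
    (c < 0 → ¬ IsClosed {x : PointsOfDim (affineLine k) 0 |
      mld c (coordinate k) x.1 ≤ ((1 : ℝ) : EReal)}) := by
  classical
  have hneg : c < 0 → ¬ IsClosed {x : PointsOfDim (affineLine k) 0 |
      mld c (coordinate k) x.1 ≤ ((1 : ℝ) : EReal)} := by
    intro hc hcl
    have hopen := hcl.isOpen_compl
    let o : PointsOfDim (affineLine k) 0 :=
      ⟨point k 0, krullDim_closure_closed k _ (point_closed k 0)⟩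
    have ho : o ∈ {x : PointsOfDim (affineLine k) 0 |
        mld c (coordinate k) x.1 ≤ ((1 : ℝ) : EReal)}ᶜ := by
      change ¬ (mld c (coordinate k) (point k 0) ≤ ((1 : ℝ) : EReal))
      rw [mld_eq k c _ (point_closed k 0),
        if_pos ((mem_point_iff k 0 _).2 Polynomial.eval_X),
        if_neg (by linarith), not_le]
      exact_mod_cast (by linarith : (1 : ℝ) < 1 - c)
    rw [isOpen_induced_iff] at hopen
    obtain ⟨V, hV, hVeq⟩ := hopen
    have hoV : point k 0 ∈ V := by
      have : o ∈ Subtype.val ⁻¹' V := by rw [hVeq]; exact ho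
      exact this
    obtain ⟨W, ⟨g, rfl⟩, hgo, hgV⟩ :=
      (PrimeSpectrum.isTopologicalBasis_basic_opens (R := Polynomial k)).exists_subset_of_mem_open
        (show (point k 0 : PrimeSpectrum (Polynomial k)) ∈ V from hoV) hV
    have hg0 : g ≠ 0 := by
      rintro rfl
      exact hgo (Ideal.zero_mem _)
    have hne : Polynomial.X * g ≠ 0 := mul_ne_zero Polynomial.X_ne_zero hg0
    obtain ⟨a, ha⟩ := Infinite.exists_notMem_finset (Polynomial.X * g).roots.toFinset
    have ha' : (Polynomial.X * g).eval a ≠ 0 := by
      intro h0
      apply ha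
      rw [Multiset.mem_toFinset, Polynomial.mem_roots hne]
      exact h0
    rw [Polynomial.eval_mul, Polynomial.eval_X] at ha'
    have ha0 : a ≠ 0 := left_ne_zero_of_mul ha'
    have hga : g.eval a ≠ 0 := right_ne_zero_of_mul ha'
    have haV : point k a ∈ V := by
      apply hgV
      change g ∉ (point k a).asIdeal
      rw [mem_point_iff]
      exact hga
    let w : PointsOfDim (affineLine k) 0 :=
      ⟨point k a, krullDim_closure_closed k _ (point_closed k a)⟩
    have hw : w ∈ {x : PointsOfDim (affineLine k) 0 |
        mld c (coordinate k) x.1 ≤ ((1 : ℝ) : EReal)}ᶜ := by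
      rw [← hVeq]
      exact haV
    apply hw
    change mld c (coordinate k) (point k a) ≤ ((1 : ℝ) : EReal)
    rw [mld_eq k c _ (point_closed k a), if_neg]
    · exact le_rfl
    · rw [mem_point_iff, Polynomial.eval_X]
      exact ha0
  refine ⟨⟨fun h => ?_, fun hc d a => ?_⟩, hneg⟩
  · by_contra hc
    exact hneg (not_le.1 hc) (h 0 1)
  · by_cases hd : d = 0
    · subst hd
      by_cases ha : 1 ≤ a
      · convert isClosed_univ
        rw [Set.eq_univ_iff_forall]
        intro x
        change mld c (coordinate k) x.1 ≤ _
        rw [mld_eq k c _ (closed_of_dim_zero k x)]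
        split_ifs
        · exact bot_le
        · exact_mod_cast (by linarith : 1 - c ≤ a)
        · exact_mod_cast ha
      · have h1 : {x : PointsOfDim (affineLine k) 0 |
            mld c (coordinate k) x.1 ≤ (a : EReal)} =
            {x | (Polynomial.X : Polynomial k) ∈ x.1.asIdeal ∧
              (if 1 - c < 0 then ⊥ else ((1 - c : ℝ) : EReal)) ≤ (a : EReal)} := by
          ext x
          change mld c (coordinate k) x.1 ≤ _ ↔ _ ∧ _
          rw [mld_eq k c _ (closed_of_dim_zero k x)]
          by_cases hX : (Polynomial.X : Polynomial k) ∈ x.1.asIdeal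
          · rw [if_pos hX]
            exact ⟨fun h => ⟨hX, h⟩, fun h => h.2⟩
          · rw [if_neg hX]
            refine ⟨fun h => absurd (by exact_mod_cast h) ha, fun h => absurd h.1 hX⟩
        rw [h1]
        have h2 : IsClosed {x : PointsOfDim (affineLine k) 0 |
            (Polynomial.X : Polynomial k) ∈ x.1.asIdeal} := by
          have h3 : IsClosed (PrimeSpectrum.zeroLocus {(Polynomial.X : Polynomial k)}) :=
            PrimeSpectrum.isClosed_zeroLocus _
          have h4 := h3.preimage (continuous_subtype_val (p := fun x : affineLine k =>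
            topologicalKrullDim (closure ({x} : Set (affineLine k))) = ((0 : ℕ) : WithBot ℕ∞)))
          convert h4
          ext x
          change (Polynomial.X : Polynomial k) ∈ (x.1.asIdeal : Set (Polynomial k)) ↔
            {(Polynomial.X : Polynomial k)} ⊆ (x.1.asIdeal : Set (Polynomial k))
          exact Set.singleton_subset_iff.symm
        by_cases h5 : (if 1 - c < 0 then ⊥ else ((1 - c : ℝ) : EReal)) ≤ (a : EReal)
        · simpa only [h5, and_true] using h2
        · simp only [h5, and_false]
          exact isClosed_const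
    · have := subsingleton_of_dim_pos k d hd
      exact isClosed_discrete _

end Pool.Agent.Results.MP_f23696_ag.NonEffective
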